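import Pool.Agent.Lib_MP_d22ea4_an.Geom

open MeasureTheory Filter Topology Complex
open scoped ContDiff ComplexConjugate InnerProductSpace

noncomputable section

namespace MP_d22ea4_an
namespace WD

/-- the frame `∂_0, ∂_1 + F(x_0) ∂_2, ∂_3, ∂_4 + G(x_0) ∂_5` -/
def XF (F G : ℝ → ℝ) : Fin 4 → VF 6 := fun i x =>
  match i with
  | 0 => ![1, 0, 0, 0, 0, 0]
  | 1 => ![0, 1, F (x 0), 0, 0, 0]
  | 2 => ![0, 0, 0, 1, 0, 0]
  | 3 => ![0, 0, 0, 0, 1, G (x 0)]

theorem isVF_XF {F G : ℝ → ℝ} (hF : ContDiff ℝ ∞ F) (hG : ContDiff ℝ ∞ G)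
    (pF : Function.Periodic F 1) (pG : Function.Periodic G 1) (i : Fin 4) : IsVF (XF F G i) := by
  have hF' : ContDiff ℝ ∞ (fun x : Fin 6 → ℝ => F (x 0)) := hF.comp (by fun_prop)
  have hG' : ContDiff ℝ ∞ (fun x : Fin 6 → ℝ => G (x 0)) := hG.comp (by fun_prop)
  constructor
  · rw [contDiff_pi]
    intro j
    fin_cases i <;> fin_cases j <;> simp [XF] <;> first | exact hF' | exact hG' | fun_prop
  · intro x k
    have pF' : F (x 0 + (k 0 : ℤ)) = F (x 0) := by
      simpa using pF.int_mul (k 0) (x 0)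
    have pG' : G (x 0 + (k 0 : ℤ)) = G (x 0) := by
      simpa using pG.int_mul (k 0) (x 0)
    fin_cases i
    · rfl
    · simp only [XF, Pi.add_apply, pF']
    · rfl
    · simp only [XF, Pi.add_apply, pG']

theorem isFrame_XF {F G : ℝ → ℝ} (hF : ContDiff ℝ ∞ F) (hG : ContDiff ℝ ∞ G)
    (pF : Function.Periodic F 1) (pG : Function.Periodic G 1) : IsFrame (XF F G) where
  vf := isVF_XF hF hG pF pG
  indep := by
    intro x
    rw [Fintype.linearIndependent_iff]
    intro g hg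
    have h0 := congrFun hg 0
    have h1 := congrFun hg 1
    have h3 := congrFun hg 3
    have h4 := congrFun hg 4
    simp [Fin.sum_univ_four, XF] at h0 h1 h3 h4
    intro i
    fin_cases i
    · exact h0
    · exact h1
    · exact h3
    · exact h4

theorem isSection_XF {F G : ℝ → ℝ} (hF : ContDiff ℝ ∞ F) (hG : ContDiff ℝ ∞ G)
    (pF : Function.Periodic F 1) (pG : Function.Periodic G 1) (i : Fin 4) :
    IsSection (XF F G) (XF F G i) :=
  ⟨isVF_XF hF hG pF pG i, fun _ => Submodule.subset_span ⟨i, rfl⟩⟩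

theorem Ef_zero' (F G : ℝ → ℝ) : Ef 0 = XF F G 0 := by
  funext x i
  fin_cases i <;> simp [Ef, XF]

theorem Ef_three' (F G : ℝ → ℝ) : Ef 3 = XF F G 2 := by
  funext x i
  fin_cases i <;> simp [Ef, XF]

theorem XF_one' (F G : ℝ → ℝ) : XF F G 1 = fun x => Ef 1 x + Gf 0 2 F x := by
  funext x i
  fin_cases i <;> simp [Ef, XF, Gf]

theorem XF_three' (F G : ℝ → ℝ) : XF F G 3 = fun x => Ef 4 x + Gf 0 5 G x := by
  funext x i
  fin_cases i <;> simp [Ef, XF, Gf]

/-! ### the upper bound of the flag: functions vanishing to high order -/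

/-- `g` is a smooth multiple of `w (x_0) ^ k` -/
def VanW (w : ℝ → ℝ) (k : ℕ) (g : (Fin 6 → ℝ) → ℝ) : Prop :=
  ∃ h : (Fin 6 → ℝ) → ℝ, ContDiff ℝ ∞ h ∧ ∀ x, g x = w (x 0) ^ k * h x

section van
variable {w : ℝ → ℝ}

theorem contDiff_w (hw : ContDiff ℝ ∞ w) : ContDiff ℝ ∞ (fun x : Fin 6 → ℝ => w (x 0)) :=
  hw.comp (by fun_prop)

theorem VanW.smooth (hw : ContDiff ℝ ∞ w) {k : ℕ} {g : (Fin 6 → ℝ) → ℝ} (hg : VanW w k g) :
    ContDiff ℝ ∞ g := by
  obtain ⟨h, hh, hgh⟩ := hg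
  have : g = fun x => w (x 0) ^ k * h x := funext hgh
  rw [this]
  exact ((contDiff_w hw).pow k).mul hh

theorem VanW.add {k : ℕ} {g g' : (Fin 6 → ℝ) → ℝ} (hg : VanW w k g) (hg' : VanW w k g') :
    VanW w k (fun x => g x + g' x) := by
  obtain ⟨h, hh, hgh⟩ := hg
  obtain ⟨h', hh', hgh'⟩ := hg'
  exact ⟨fun x => h x + h' x, hh.add hh', fun x => by dsimp only; rw [hgh, hgh']; ring⟩

theorem VanW.sub {k : ℕ} {g g' : (Fin 6 → ℝ) → ℝ} (hg : VanW w k g) (hg' : VanW w k g') :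
    VanW w k (fun x => g x - g' x) := by
  obtain ⟨h, hh, hgh⟩ := hg
  obtain ⟨h', hh', hgh'⟩ := hg'
  exact ⟨fun x => h x - h' x, hh.sub hh', fun x => by dsimp only; rw [hgh, hgh']; ring⟩

theorem VanW.mul {k : ℕ} {g g' : (Fin 6 → ℝ) → ℝ} (hg : VanW w k g) (hg' : ContDiff ℝ ∞ g') :
    VanW w k (fun x => g x * g' x) := by
  obtain ⟨h, hh, hgh⟩ := hg
  exact ⟨fun x => h x * g' x, hh.mul hg', fun x => by dsimp only; rw [hgh]; ring⟩

theorem VanW.mono (hw : ContDiff ℝ ∞ w) {k l : ℕ} {g : (Fin 6 → ℝ) → ℝ} (hg : VanW w k g)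
    (hl : l ≤ k) : VanW w l g := by
  obtain ⟨h, hh, hgh⟩ := hg
  refine ⟨fun x => w (x 0) ^ (k - l) * h x, ((contDiff_w hw).pow _).mul hh, fun x => ?_⟩
  rw [hgh, ← mul_assoc, ← pow_add, Nat.add_sub_cancel' hl]

theorem vanW_of_smooth {g : (Fin 6 → ℝ) → ℝ} (hg : ContDiff ℝ ∞ g) : VanW w 0 g :=
  ⟨g, hg, fun x => by simp⟩

theorem VanW.deriv (hw : ContDiff ℝ ∞ w) {k : ℕ} {g : (Fin 6 → ℝ) → ℝ} (hg : VanW w k g)
    {V : VF 6} (hV : ContDiff ℝ ∞ V) : VanW w (k - 1) (fun x => fderiv ℝ g x (V x)) := by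
  rcases k with _ | k
  · exact vanW_of_smooth (smooth_deriv (hg.smooth hw) hV)
  · obtain ⟨h, hh, hgh⟩ := hg
    have hs := contDiff_w hw
    refine ⟨fun x => ((k : ℝ) + 1) * fderiv ℝ (fun x : Fin 6 → ℝ => w (x 0)) x (V x)
        * h x + w (x 0) * fderiv ℝ h x (V x), ?_, fun x => ?_⟩
    · exact ((contDiff_const.mul (smooth_deriv hs hV)).mul hh).add (hs.mul (smooth_deriv hh hV))
    · have e : g = fun x => w (x 0) ^ (k + 1) * h x := funext hgh
      have hd1 : DifferentiableAt ℝ (fun x : Fin 6 → ℝ => w (x 0)) x :=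
        hs.differentiable (by simp) x
      have hd2 : DifferentiableAt ℝ h x := hh.differentiable (by simp) x
      have h3 : HasFDerivAt (fun x : Fin 6 → ℝ => w (x 0) ^ (k + 1) * h x) _ x :=
        (hd1.hasFDerivAt.pow (k + 1)).mul hd2.hasFDerivAt
      dsimp only
      rw [e, h3.fderiv]
      simp only [Nat.add_sub_cancel, add_apply, smul_apply,
        smul_eq_mul, nsmul_eq_mul]
      push_cast
      ring

end van

/-- `θ = dx_k - H(x_0) dx_e` -/
def thetaW (H : ℝ → ℝ) (e k : Fin 6) (V : VF 6) (x : Fin 6 → ℝ) : ℝ := V x k - H (x 0) * V x e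

theorem thetaW_section {F G H : ℝ → ℝ} {e k : Fin 6}
    (h0 : ∀ (i : Fin 4) (x : Fin 6 → ℝ), thetaW H e k (XF F G i) x = 0) {V : VF 6}
    (hV : IsSection (XF F G) V) (x : Fin 6 → ℝ) : thetaW H e k V x = 0 := by
  have h := hV.2 x
  unfold thetaW
  refine Submodule.span_induction (p := fun v _ => v k - H (x 0) * v e = 0) ?_ ?_ ?_ ?_ h
  · rintro v ⟨i, rfl⟩
    exact h0 i x
  · simp
  · intro a b _ _ ha hb
    simp only [Pi.add_apply]
    linarith
  · intro c a _ ha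
    simp only [Pi.smul_apply, smul_eq_mul]
    have : c * a k - H (x 0) * (c * a e) = c * (a k - H (x 0) * a e) := by ring
    rw [this, ha, mul_zero]

theorem thetaW_bracket {H : ℝ → ℝ} (hH : ContDiff ℝ ∞ H) (e k : Fin 6) {V W : VF 6}
    (hV : ContDiff ℝ ∞ V) (hW : ContDiff ℝ ∞ W) :
    thetaW H e k (VectorField.lieBracket ℝ V W) = fun x =>
      (fderiv ℝ (thetaW H e k W) x (V x) - fderiv ℝ (thetaW H e k V) x (W x)) +
      (fderiv ℝ (fun y : Fin 6 → ℝ => H (y 0)) x (V x) * W x e -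
        fderiv ℝ (fun y : Fin 6 → ℝ => H (y 0)) x (W x) * V x e) := by
  funext x
  have hf : DifferentiableAt ℝ (fun y : Fin 6 → ℝ => H (y 0)) x :=
    (contDiff_w hH).differentiable (by simp) x
  have key : ∀ U : VF 6, ContDiff ℝ ∞ U → ∀ v : Fin 6 → ℝ, fderiv ℝ (thetaW H e k U) x v =
      fderiv ℝ (fun y => U y k) x v - (H (x 0) * fderiv ℝ (fun y => U y e) x v +
        fderiv ℝ (fun y : Fin 6 → ℝ => H (y 0)) x v * U x e) := by
    intro U hU v
    have h1 : DifferentiableAt ℝ (fun y => U y e) x :=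
      (contDiff_comp hU e).differentiable (by simp) x
    have h2 : DifferentiableAt ℝ (fun y => U y k) x :=
      (contDiff_comp hU k).differentiable (by simp) x
    have h3 : HasFDerivAt (fun y => U y k - H (y 0) * U y e) _ x :=
      h2.hasFDerivAt.sub (hf.hasFDerivAt.mul h1.hasFDerivAt)
    have h4 : thetaW H e k U = fun y => U y k - H (y 0) * U y e := rfl
    rw [h4, h3.fderiv]
    simp only [sub_apply, add_apply,
      smul_apply, smul_eq_mul]
    ring
  rw [key V hV, key W hW]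
  unfold thetaW
  rw [lieBracket_apply hV hW, lieBracket_apply hV hW]
  ring

theorem bracketW_facts {F G H w : ℝ → ℝ} {e k : Fin 6} (hw : ContDiff ℝ ∞ w)
    (hH : ContDiff ℝ ∞ H)
    (h0 : ∀ (i : Fin 4) (x : Fin 6 → ℝ), thetaW H e k (XF F G i) x = 0) {K : ℕ} {c0 : ℝ}
    (hK : VanW w (K + 1) (fun x => H (x 0) - c0)) {j : ℕ} {V : VF 6}
    (h : IsBracket (XF F G) j V) :
    1 ≤ j ∧ ContDiff ℝ ∞ V ∧ VanW w (K + 2 - j) (thetaW H e k V) := by
  have hd : ∀ U : VF 6, ContDiff ℝ ∞ U →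
      VanW w K (fun x => fderiv ℝ (fun y : Fin 6 → ℝ => H (y 0)) x (U x)) := by
    intro U hU
    have h1 := hK.deriv hw hU
    have h2 : (fun x : Fin 6 → ℝ => fderiv ℝ (fun y : Fin 6 → ℝ => H (y 0) - c0) x (U x)) =
        fun x => fderiv ℝ (fun y : Fin 6 → ℝ => H (y 0)) x (U x) := by
      funext x
      rw [fderiv_sub_const]
    rw [h2] at h1
    exact h1
  induction h with
  | sec h =>
    refine ⟨le_rfl, h.1.smooth, fun _ => 0, contDiff_const, fun x => ?_⟩
    rw [thetaW_section h0 h x, mul_zero]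
  | @bracket i j V W _ _ ihV ihW =>
    obtain ⟨hi, hV, hvV⟩ := ihV
    obtain ⟨hj, hW, hvW⟩ := ihW
    refine ⟨by omega, contDiff_lieBracket hV hW, ?_⟩
    rw [thetaW_bracket hH e k hV hW]
    refine (((hvW.deriv hw hV).mono hw (by omega)).sub
      ((hvV.deriv hw hW).mono hw (by omega))).add ?_
    exact (((hd V hV).mul (contDiff_comp hW e)).mono hw (by omega)).sub
      (((hd W hW).mul (contDiff_comp hV e)).mono hw (by omega))

/-- at the zeros of `w` the form `dx_k - c0 dx_e` annihilates `D_{K+1}` -/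
theorem flag_XF {F G H w : ℝ → ℝ} {e k : Fin 6} (hw : ContDiff ℝ ∞ w)
    (hH : ContDiff ℝ ∞ H)
    (h0 : ∀ (i : Fin 4) (x : Fin 6 → ℝ), thetaW H e k (XF F G i) x = 0) {K : ℕ} {c0 : ℝ}
    (hK : VanW w (K + 1) (fun x => H (x 0) - c0)) (x : Fin 6 → ℝ) (hx : w (x 0) = 0) :
    ∀ v ∈ flag (XF F G) (K + 1) x, v k = c0 * v e := by
  intro v hv
  unfold flag at hv
  refine Submodule.span_induction (p := fun v _ => v k = c0 * v e) ?_ (by simp) ?_ ?_ hv
  · rintro v ⟨j, hj, V, hV, rfl⟩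
    obtain ⟨hj1, hVs, hvan⟩ := bracketW_facts hw hH h0 hK hV
    obtain ⟨h, -, hh⟩ := hvan.mono hw (l := 1) (by omega)
    have h1 := hh x
    obtain ⟨h', -, hh'⟩ := hK
    have h2 := hh' x
    rw [hx, zero_pow (by omega), zero_mul] at h2
    rw [hx, pow_one, zero_mul] at h1
    unfold thetaW at h1
    have h3 : H (x 0) = c0 := by linarith
    rw [h3] at h1
    linarith
  · intro a b _ _ ha hb
    rw [Pi.add_apply, Pi.add_apply, ha, hb]
    ring
  · intro c a _ ha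
    rw [Pi.smul_apply, Pi.smul_apply, ha, smul_eq_mul, smul_eq_mul]
    ring


theorem iteratedDeriv_ne {w : ℝ → ℝ} (hw : ContDiff ℝ ∞ w) {c : ℝ} (h0 : w c = 0)
    (h1 : deriv w c ≠ 0) : ∀ (n : ℕ) (φ ψ : ℝ → ℝ), ContDiff ℝ ∞ ψ →
      (∀ x, φ x = w x ^ n * ψ x) → ψ c ≠ 0 → iteratedDeriv n φ c ≠ 0 := by
  intro n
  induction n with
  | zero =>
    intro φ ψ _ h hc
    rw [iteratedDeriv_zero, h, pow_zero, one_mul]
    exact hc
  | succ n ih =>
    intro φ ψ hψ h hc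
    rw [iteratedDeriv_succ']
    have hw' : ContDiff ℝ ∞ (deriv w) := contDiff_infty_iff_deriv.1 hw |>.2
    have hψ' : ContDiff ℝ ∞ (deriv ψ) := contDiff_infty_iff_deriv.1 hψ |>.2
    refine ih (deriv φ) (fun x => ((n : ℝ) + 1) * deriv w x * ψ x + w x * deriv ψ x)
      ((contDiff_const.mul hw').mul hψ |>.add (hw.mul hψ')) (fun x => ?_) ?_
    · have e : φ = fun x => w x ^ (n + 1) * ψ x := funext h
      have d1 : HasDerivAt w (deriv w x) x := (hw.differentiable (by simp) x).hasDerivAt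
      have d2 : HasDerivAt ψ (deriv ψ x) x := (hψ.differentiable (by simp) x).hasDerivAt
      have d3 := (d1.pow (n + 1)).mul d2
      rw [e]
      have d4 : HasDerivAt (fun x => w x ^ (n + 1) * ψ x) _ x := d3
      rw [d4.deriv]
      push_cast
      simp only [Nat.add_sub_cancel, Pi.pow_apply]
      ring
    · show ((n : ℝ) + 1) * deriv w c * ψ c + w c * deriv ψ c ≠ 0
      rw [h0, zero_mul, add_zero]
      have : (n : ℝ) + 1 ≠ 0 := by positivity
      exact mul_ne_zero (mul_ne_zero this h1) hc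

theorem isBracket_iter {X : Fin 4 → VF 6} {j : ℕ} (c k : Fin 6) {g : ℝ → ℝ}
    (hg : ContDiff ℝ ∞ g) (hc : IsSection X (Ef c)) (hb : IsBracket X j (Gf c k g)) (n : ℕ) :
    IsBracket X (n + j) (Gf c k (iteratedDeriv n g)) := by
  induction n with
  | zero => simpa using hb
  | succ n ih =>
    have hs : ContDiff ℝ ∞ (iteratedDeriv n g) := by
      have := hg.iterate_deriv n
      rwa [← iteratedDeriv_eq_iterate] at this
    have hd : ∀ t, HasDerivAt (iteratedDeriv n g) (iteratedDeriv (n + 1) g t) t := by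
      intro t
      rw [iteratedDeriv_succ]
      exact (hs.differentiable (by simp) t).hasDerivAt
    rw [← bracket_Gf c k hd]
    have := IsBracket.bracket (IsBracket.sec hc) ih
    rwa [show 1 + (n + j) = n + 1 + j by ring] at this


theorem flag_mono {X : Fin 4 → VF 6} {i j : ℕ} (h : i ≤ j) (x : Fin 6 → ℝ) :
    flag X i x ≤ flag X j x := by
  apply Submodule.span_mono
  rintro v ⟨l, hl, V, hV, hv⟩
  exact ⟨l, hl.trans h, V, hV, hv⟩

theorem single_mem_of_deriv {F G H : ℝ → ℝ} (e k : Fin 6) (hH : ContDiff ℝ ∞ H)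
    (h0 : IsSection (XF F G) (Ef 0))
    (hs : IsSection (XF F G) (fun x => Ef e x + Gf 0 k H x)) (n N : ℕ) (hN : n + 2 ≤ N)
    (x : Fin 6 → ℝ) (hne : iteratedDeriv n (deriv H) (x 0) ≠ 0) :
    (Pi.single k 1 : Fin 6 → ℝ) ∈ flag (XF F G) N x := by
  have hd : ∀ t, HasDerivAt H (deriv H t) t := fun t =>
    (hH.differentiable (by simp) t).hasDerivAt
  have b2 : IsBracket (XF F G) (1 + 1) (Gf 0 k (deriv H)) := by
    rw [← bracket_first 0 e k hd]
    exact IsBracket.bracket (IsBracket.sec h0) (IsBracket.sec hs)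
  have hH' : ContDiff ℝ ∞ (deriv H) := contDiff_infty_iff_deriv.1 hH |>.2
  have b3 := isBracket_iter 0 k hH' h0 b2 n
  have h1 : (Pi.single k (iteratedDeriv n (deriv H) (x 0)) : Fin 6 → ℝ) ∈ flag (XF F G) N x :=
    Submodule.subset_span ⟨n + (1 + 1), by omega, _, b3, rfl⟩
  have : (Pi.single k 1 : Fin 6 → ℝ) = (iteratedDeriv n (deriv H) (x 0))⁻¹ •
      Pi.single k (iteratedDeriv n (deriv H) (x 0)) := by
    rw [← Pi.single_smul, smul_eq_mul, inv_mul_cancel₀ hne]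
  rw [this]
  exact Submodule.smul_mem _ _ h1

theorem XF_mem {F G : ℝ → ℝ} (hF : ContDiff ℝ ∞ F) (hG : ContDiff ℝ ∞ G)
    (pF : Function.Periodic F 1) (pG : Function.Periodic G 1) {N : ℕ} (hN : 1 ≤ N) (i : Fin 4)
    (x : Fin 6 → ℝ) : XF F G i x ∈ flag (XF F G) N x :=
  Submodule.subset_span ⟨1, hN, _, IsBracket.sec (isSection_XF hF hG pF pG i), rfl⟩

theorem flag_top_of {F G : ℝ → ℝ} (hF : ContDiff ℝ ∞ F) (hG : ContDiff ℝ ∞ G)
    (pF : Function.Periodic F 1) (pG : Function.Periodic G 1) {N : ℕ} (hN : 1 ≤ N)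
    (x : Fin 6 → ℝ) (h2 : (Pi.single 2 1 : Fin 6 → ℝ) ∈ flag (XF F G) N x)
    (h5 : (Pi.single 5 1 : Fin 6 → ℝ) ∈ flag (XF F G) N x) : flag (XF F G) N x = ⊤ := by
  rw [Submodule.eq_top_iff']
  intro v
  have e : v = v 0 • XF F G 0 x + v 1 • XF F G 1 x + v 3 • XF F G 2 x + v 4 • XF F G 3 x +
      (v 2 - v 1 * F (x 0)) • (Pi.single 2 1 : Fin 6 → ℝ) +
      (v 5 - v 4 * G (x 0)) • (Pi.single 5 1 : Fin 6 → ℝ) := by
    funext i
    simp only [Pi.add_apply, Pi.smul_apply, smul_eq_mul]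
    fin_cases i <;> simp [XF]
  rw [e]
  have m := fun i => XF_mem hF hG pF pG hN i x
  exact Submodule.add_mem _ (Submodule.add_mem _ (Submodule.add_mem _ (Submodule.add_mem _
    (Submodule.add_mem _ (Submodule.smul_mem _ _ (m 0)) (Submodule.smul_mem _ _ (m 1)))
    (Submodule.smul_mem _ _ (m 2))) (Submodule.smul_mem _ _ (m 3)))
    (Submodule.smul_mem _ _ h2)) (Submodule.smul_mem _ _ h5)

/-! ### the two functions -/

/-- `f(x) = (1 - cos 2πx)^4` -/
def fW (x : ℝ) : ℝ := (1 - Real.cos (2 * Real.pi * x)) ^ 4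

/-- `g = 560 t^3 - 840 t^4 + 504 t^5 - 140 t^6 + 15 t^7`, `t = 1 - cos 2πx` -/
def gW (x : ℝ) : ℝ := 560 * (1 - Real.cos (2 * Real.pi * x)) ^ 3 -
  840 * (1 - Real.cos (2 * Real.pi * x)) ^ 4 + 504 * (1 - Real.cos (2 * Real.pi * x)) ^ 5 -
  140 * (1 - Real.cos (2 * Real.pi * x)) ^ 6 + 15 * (1 - Real.cos (2 * Real.pi * x)) ^ 7

theorem contDiff_fW : ContDiff ℝ ∞ fW := by unfold fW; fun_prop
theorem contDiff_gW : ContDiff ℝ ∞ gW := by unfold gW; fun_prop

theorem cos_per (x : ℝ) : Real.cos (2 * Real.pi * (x + 1)) = Real.cos (2 * Real.pi * x) := by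
  rw [show 2 * Real.pi * (x + 1) = 2 * Real.pi * x + 2 * Real.pi by ring, Real.cos_add_two_pi]

theorem fW_periodic : Function.Periodic fW 1 := by
  intro x; unfold fW; rw [cos_per]

theorem gW_periodic : Function.Periodic gW 1 := by
  intro x; unfold gW; rw [cos_per]

theorem one_sub_cos (x : ℝ) : 1 - Real.cos (2 * Real.pi * x) = 2 * Real.sin (Real.pi * x) ^ 2 := by
  rw [show 2 * Real.pi * x = 2 * (Real.pi * x) by ring, Real.cos_two_mul, Real.cos_sq']
  ring

theorem hasDerivAt_t (x : ℝ) : HasDerivAt (fun x : ℝ => 1 - Real.cos (2 * Real.pi * x))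
    (4 * Real.pi * Real.sin (Real.pi * x) * Real.cos (Real.pi * x)) x := by
  have h0 : HasDerivAt (fun x : ℝ => 2 * Real.pi * x) (2 * Real.pi) x := by
    simpa using (hasDerivAt_id x).const_mul (2 * Real.pi)
  have h1 := (h0.cos).const_sub 1
  refine h1.congr_deriv ?_
  rw [show 2 * Real.pi * x = 2 * (Real.pi * x) by ring, Real.sin_two_mul]
  ring

theorem hasDerivAt_fW (x : ℝ) : HasDerivAt fW
    (128 * Real.pi * Real.sin (Real.pi * x) ^ 7 * Real.cos (Real.pi * x)) x := by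
  have h := (hasDerivAt_t x).pow 4
  have h' : HasDerivAt fW _ x := h
  refine h'.congr_deriv ?_
  simp only [one_sub_cos]
  ring

theorem hasDerivAt_gW (x : ℝ) : HasDerivAt gW
    (26880 * Real.pi * Real.sin (Real.pi * x) ^ 5 * Real.cos (Real.pi * x) ^ 9) x := by
  have ht := hasDerivAt_t x
  have h := (((((ht.pow 3).const_mul 560).sub ((ht.pow 4).const_mul 840)).add
    ((ht.pow 5).const_mul 504)).sub ((ht.pow 6).const_mul 140)).add ((ht.pow 7).const_mul 15)
  have h' : HasDerivAt gW _ x := h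
  refine h'.congr_deriv ?_
  simp only [one_sub_cos]
  have hc : Real.cos (Real.pi * x) ^ 9 = (1 - Real.sin (Real.pi * x) ^ 2) ^ 4 *
      Real.cos (Real.pi * x) := by
    rw [← Real.cos_sq']; ring
  rw [hc]
  push_cast
  ring

theorem gW_sub (x : ℝ) : gW x - 128 = Real.cos (Real.pi * x) ^ 10 *
    (-32 * (84 - 140 * Real.cos (Real.pi * x) ^ 2 + 60 * Real.cos (Real.pi * x) ^ 4)) := by
  unfold gW
  rw [one_sub_cos, Real.sin_sq]
  ring

/-- `cos (π x)` -/
def cW (x : ℝ) : ℝ := Real.cos (Real.pi * x)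
/-- `sin (π x)` -/
def sW (x : ℝ) : ℝ := Real.sin (Real.pi * x)

theorem contDiff_cW : ContDiff ℝ ∞ cW := by unfold cW; fun_prop
theorem contDiff_sW : ContDiff ℝ ∞ sW := by unfold sW; fun_prop

theorem hasDerivAt_cW (x : ℝ) : HasDerivAt cW (-(Real.pi * sW x)) x := by
  have h0 : HasDerivAt (fun x : ℝ => Real.pi * x) Real.pi x := by
    simpa using (hasDerivAt_id x).const_mul Real.pi
  refine (h0.cos).congr_deriv ?_
  unfold sW; ring

theorem hasDerivAt_sW (x : ℝ) : HasDerivAt sW (Real.pi * cW x) x := by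
  have h0 : HasDerivAt (fun x : ℝ => Real.pi * x) Real.pi x := by
    simpa using (hasDerivAt_id x).const_mul Real.pi
  refine (h0.sin).congr_deriv ?_
  unfold cW; ring

theorem sW_sq_add (x : ℝ) : sW x ^ 2 + cW x ^ 2 = 1 := Real.sin_sq_add_cos_sq _

theorem deriv_fW : deriv fW = fun x => 128 * Real.pi * sW x ^ 7 * cW x :=
  funext fun x => (hasDerivAt_fW x).deriv

theorem deriv_gW : deriv gW = fun x => 26880 * Real.pi * sW x ^ 5 * cW x ^ 9 :=
  funext fun x => (hasDerivAt_gW x).deriv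

theorem pi_ne : Real.pi ≠ 0 := Real.pi_ne_zero

/-- the flag at the points with `sin π x_0 = 0` -/
theorem iter_f_sin {x : ℝ} (h : sW x = 0) : iteratedDeriv 7 (deriv fW) x ≠ 0 := by
  have hc : cW x ≠ 0 := by
    intro h'
    have := sW_sq_add x
    rw [h, h'] at this
    norm_num at this
  refine iteratedDeriv_ne contDiff_sW h ?_ 7 (deriv fW) (fun x => 128 * Real.pi * cW x)
    (contDiff_const.mul contDiff_cW) (fun y => ?_) ?_
  · rw [(hasDerivAt_sW x).deriv]
    exact mul_ne_zero pi_ne hc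
  · rw [deriv_fW]; ring
  · exact mul_ne_zero (mul_ne_zero (by norm_num) pi_ne) hc

theorem iter_g_sin {x : ℝ} (h : sW x = 0) : iteratedDeriv 5 (deriv gW) x ≠ 0 := by
  have hc : cW x ≠ 0 := by
    intro h'
    have := sW_sq_add x
    rw [h, h'] at this
    norm_num at this
  refine iteratedDeriv_ne contDiff_sW h ?_ 5 (deriv gW) (fun x => 26880 * Real.pi * cW x ^ 9)
    (contDiff_const.mul (contDiff_cW.pow 9)) (fun y => ?_) ?_
  · rw [(hasDerivAt_sW x).deriv]
    exact mul_ne_zero pi_ne hc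
  · rw [deriv_gW]; ring
  · exact mul_ne_zero (mul_ne_zero (by norm_num) pi_ne) (pow_ne_zero _ hc)

theorem iter_f_cos {x : ℝ} (h : cW x = 0) : iteratedDeriv 1 (deriv fW) x ≠ 0 := by
  have hs : sW x ≠ 0 := by
    intro h'
    have := sW_sq_add x
    rw [h, h'] at this
    norm_num at this
  refine iteratedDeriv_ne contDiff_cW h ?_ 1 (deriv fW) (fun x => 128 * Real.pi * sW x ^ 7)
    (contDiff_const.mul (contDiff_sW.pow 7)) (fun y => ?_) ?_
  · rw [(hasDerivAt_cW x).deriv]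
    exact neg_ne_zero.2 (mul_ne_zero pi_ne hs)
  · rw [deriv_fW]; ring
  · exact mul_ne_zero (mul_ne_zero (by norm_num) pi_ne) (pow_ne_zero _ hs)

theorem iter_g_cos {x : ℝ} (h : cW x = 0) : iteratedDeriv 9 (deriv gW) x ≠ 0 := by
  have hs : sW x ≠ 0 := by
    intro h'
    have := sW_sq_add x
    rw [h, h'] at this
    norm_num at this
  refine iteratedDeriv_ne contDiff_cW h ?_ 9 (deriv gW) (fun x => 26880 * Real.pi * sW x ^ 5)
    (contDiff_const.mul (contDiff_sW.pow 5)) (fun y => ?_) ?_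
  · rw [(hasDerivAt_cW x).deriv]
    exact neg_ne_zero.2 (mul_ne_zero pi_ne hs)
  · rw [deriv_gW]; ring
  · exact mul_ne_zero (mul_ne_zero (by norm_num) pi_ne) (pow_ne_zero _ hs)

/-- the frame -/
abbrev XW : Fin 4 → VF 6 := XF fW gW

theorem isFrame_XW : IsFrame XW := isFrame_XF contDiff_fW contDiff_gW fW_periodic gW_periodic

theorem sec0 : IsSection XW (Ef 0) := by
  rw [Ef_zero' fW gW]
  exact isSection_XF contDiff_fW contDiff_gW fW_periodic gW_periodic 0

theorem sec1 : IsSection XW (fun x => Ef 1 x + Gf 0 2 fW x) := by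
  rw [← XF_one' fW gW]
  exact isSection_XF contDiff_fW contDiff_gW fW_periodic gW_periodic 1

theorem sec3 : IsSection XW (fun x => Ef 4 x + Gf 0 5 gW x) := by
  rw [← XF_three' fW gW]
  exact isSection_XF contDiff_fW contDiff_gW fW_periodic gW_periodic 3

theorem single_two_XW (x : Fin 6 → ℝ) : (Pi.single 2 1 : Fin 6 → ℝ) ∈ flag XW 9 x := by
  by_cases hs : sW (x 0) = 0
  · exact single_mem_of_deriv 1 2 contDiff_fW sec0 sec1 7 9 (by norm_num) x (iter_f_sin hs)
  by_cases hc : cW (x 0) = 0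
  · exact single_mem_of_deriv 1 2 contDiff_fW sec0 sec1 1 9 (by norm_num) x (iter_f_cos hc)
  refine single_mem_of_deriv 1 2 contDiff_fW sec0 sec1 0 9 (by norm_num) x ?_
  rw [iteratedDeriv_zero, deriv_fW]
  exact mul_ne_zero (mul_ne_zero (mul_ne_zero (by norm_num) pi_ne) (pow_ne_zero _ hs)) hc

theorem single_five_XW (x : Fin 6 → ℝ) (hc : cW (x 0) ≠ 0) :
    (Pi.single 5 1 : Fin 6 → ℝ) ∈ flag XW 7 x := by
  by_cases hs : sW (x 0) = 0
  · exact single_mem_of_deriv 4 5 contDiff_gW sec0 sec3 5 7 (by norm_num) x (iter_g_sin hs)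
  refine single_mem_of_deriv 4 5 contDiff_gW sec0 sec3 0 7 (by norm_num) x ?_
  rw [iteratedDeriv_zero, deriv_gW]
  exact mul_ne_zero (mul_ne_zero (mul_ne_zero (by norm_num) pi_ne) (pow_ne_zero _ hs))
    (pow_ne_zero _ hc)

theorem single_five_XW' (x : Fin 6 → ℝ) : (Pi.single 5 1 : Fin 6 → ℝ) ∈ flag XW 11 x := by
  by_cases hc : cW (x 0) = 0
  · exact single_mem_of_deriv 4 5 contDiff_gW sec0 sec3 9 11 (by norm_num) x (iter_g_cos hc)
  · exact flag_mono (by norm_num) x (single_five_XW x hc)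

theorem flag11_XW (x : Fin 6 → ℝ) : flag XW 11 x = ⊤ :=
  flag_top_of contDiff_fW contDiff_gW fW_periodic gW_periodic (by norm_num) x
    (flag_mono (by norm_num) x (single_two_XW x)) (single_five_XW' x)

theorem flag10_XW (x : Fin 6 → ℝ) (hc : cW (x 0) ≠ 0) : flag XW 10 x = ⊤ :=
  flag_top_of contDiff_fW contDiff_gW fW_periodic gW_periodic (by norm_num) x
    (flag_mono (by norm_num) x (single_two_XW x)) (flag_mono (by norm_num) x (single_five_XW x hc))

theorem thetaW_XW (i : Fin 4) (x : Fin 6 → ℝ) : thetaW gW 4 5 (XW i) x = 0 := by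
  unfold thetaW
  fin_cases i <;> simp [XF]

theorem flag10_XW' (x : Fin 6 → ℝ) (hc : cW (x 0) = 0) : ∀ v ∈ flag XW 10 x, v 5 = 128 * v 4 := by
  refine flag_XF (K := 9) (w := cW) contDiff_cW contDiff_gW thetaW_XW ?_ x hc
  refine ⟨fun x => -32 * (84 - 140 * cW (x 0) ^ 2 + 60 * cW (x 0) ^ 4), ?_, fun x => ?_⟩
  · have := contDiff_w contDiff_cW
    fun_prop
  · exact gW_sub (x 0)

theorem cW_half : cW (1 / 2) = 0 := by
  unfold cW
  rw [show Real.pi * (1 / 2) = Real.pi / 2 by ring, Real.cos_pi_div_two]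

theorem isStep_XW : IsStep XW 11 := by
  refine ⟨flag11_XW, fun i hi => ⟨fun _ => 1 / 2, fun h => ?_⟩⟩
  have h1 : (Pi.single 5 1 : Fin 6 → ℝ) ∈ flag XW 10 (fun _ => 1 / 2) := by
    apply flag_mono (by omega : i ≤ 10)
    rw [h]
    exact Submodule.mem_top
  have h2 := flag10_XW' (fun _ => 1 / 2) cW_half _ h1
  simp at h2

end WD
end MP_d22ea4_an
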