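import Pool.Agent.Lib_MP_d22ea4_wx.Flag
import Pool.Agent.Lib_MP_d22ea4_an.Asm6

open MeasureTheory Filter Topology Complex
open scoped ContDiff ComplexConjugate InnerProductSpace

noncomputable section

namespace MP_d22ea4_an
namespace WD

attribute [local instance] instMeasureSpaceUnitAddCircle

/-! ### the measure `W1` -/

/-- set the coordinate `0` to zero -/
def proj1 (y : Torus 6) : Torus 6 := fun i => if i = 0 then 0 else y i

/-- one half of the sum over the two signs of the Haar measure of the torus `x_0 = 0`, placed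
at the covector direction `± dx_2` -/
def W1 : Measure (CoS 6) :=
  (1 / 2 : ENNReal) • (haarT 6).map (fun y => ((proj1 y, ePlus) : CoS 6)) +
    (1 / 2 : ENNReal) • (haarT 6).map (fun y => ((proj1 y, eMinus) : CoS 6))

theorem continuous_proj1 : Continuous proj1 := by
  apply continuous_pi
  intro i
  unfold proj1
  by_cases h : i = 0
  · simp only [if_pos h]; exact continuous_const
  · simp only [if_neg h]; exact continuous_apply i

theorem measurable_emb1 (e : Metric.sphere (0 : EuclideanSpace ℝ (Fin 6)) 1) :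
    Measurable (fun y => ((proj1 y, e) : CoS 6)) :=
  continuous_proj1.measurable.prodMk measurable_const

instance prob_W1 : IsProbabilityMeasure W1 := by
  constructor
  unfold W1
  rw [Measure.add_apply, Measure.smul_apply, Measure.smul_apply,
    Measure.map_apply (measurable_emb1 _) MeasurableSet.univ,
    Measure.map_apply (measurable_emb1 _) MeasurableSet.univ, Set.preimage_univ, Set.preimage_univ,
    measure_univ]
  simp only [smul_eq_mul, mul_one]
  exact ENNReal.add_halves 1

theorem integral_W1 {F : CoS 6 → ℂ} (hF : Continuous F) {C : ℝ} (hC : ∀ p, ‖F p‖ ≤ C) :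
    ∫ p, F p ∂W1 = (1 / 2 : ℂ) * (∫ y, F (proj1 y, ePlus) ∂(haarT 6)) +
      (1 / 2 : ℂ) * (∫ y, F (proj1 y, eMinus) ∂(haarT 6)) := by
  have hm : Measurable F := hF.measurable
  have hint : ∀ (μ : Measure (CoS 6)) [IsFiniteMeasure μ], Integrable F μ := fun μ _ =>
    Integrable.of_bound hm.aestronglyMeasurable C (Eventually.of_forall hC)
  have f1 : IsProbabilityMeasure ((haarT 6).map (fun y => ((proj1 y, ePlus) : CoS 6))) :=
    Measure.isProbabilityMeasure_map (measurable_emb1 _).aemeasurable
  have f2 : IsProbabilityMeasure ((haarT 6).map (fun y => ((proj1 y, eMinus) : CoS 6))) :=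
    Measure.isProbabilityMeasure_map (measurable_emb1 _).aemeasurable
  have htop : (1 / 2 : ENNReal) ≠ ⊤ := by simp
  unfold W1
  rw [integral_add_measure ((hint _).smul_measure htop) ((hint _).smul_measure htop),
    integral_smul_measure, integral_smul_measure,
    integral_map (measurable_emb1 _).aemeasurable hm.aestronglyMeasurable,
    integral_map (measurable_emb1 _).aemeasurable hm.aestronglyMeasurable]
  have : (1 / 2 : ENNReal).toReal = 1 / 2 := by simp
  rw [this]
  simp only [Complex.real_smul]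
  push_cast
  ring

/-- the indicator of the frequencies which survive -/
def dl1 (l : Fin 6 → ℤ) : ℂ := if ∀ i, i ≠ 0 → l i = 0 then 1 else 0

theorem expo_proj1 (l : Fin 6 → ℤ) (y : Torus 6) :
    expo l (proj1 y) = expo (fun i => if i = 0 then 0 else l i) y := by
  show ∏ i, fourier (l i) (proj1 y i) = ∏ i, fourier (if i = 0 then 0 else l i) (y i)
  refine Finset.prod_congr rfl fun i _ => ?_
  unfold proj1
  by_cases h : i = 0
  · rw [if_pos h, if_pos h, fourier_eval_zero, fourier_zero]
  · rw [if_neg h, if_neg h]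

theorem integral_expo_proj1 (l : Fin 6 → ℤ) : ∫ y, expo l (proj1 y) ∂(haarT 6) = dl1 l := by
  simp_rw [expo_proj1]
  rw [integral_expo]
  unfold dl1
  congr 1
  apply propext
  constructor
  · intro h i hi
    have := congrFun h i
    simpa [hi] using this
  · intro h
    funext i
    by_cases hi : i = 0
    · simp [hi]
    · simp [hi, h i hi]

/-! ### the support -/

theorem null_open1 {U : Set (CoS 6)} (hU : IsOpen U) (h1 : ∀ y, (proj1 y, ePlus) ∉ U)
    (h2 : ∀ y, (proj1 y, eMinus) ∉ U) : ∀ p ∈ U, p ∉ W1.support := by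
  intro p hp
  rw [Measure.notMem_support_iff_exists]
  refine ⟨U, hU.mem_nhds hp, ?_⟩
  have e1 : (fun y => ((proj1 y, ePlus) : CoS 6)) ⁻¹' U = ∅ := by
    ext y; simpa using h1 y
  have e2 : (fun y => ((proj1 y, eMinus) : CoS 6)) ⁻¹' U = ∅ := by
    ext y; simpa using h2 y
  unfold W1
  rw [Measure.add_apply, Measure.smul_apply, Measure.smul_apply,
    Measure.map_apply (measurable_emb1 _) hU.measurableSet,
    Measure.map_apply (measurable_emb1 _) hU.measurableSet, e1, e2]
  simp

theorem pos_open1 {U : Set (CoS 6)} (hU : IsOpen U) {y : Torus 6} {e}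
    (he : e = ePlus ∨ e = eMinus) (hy : (proj1 y, e) ∈ U) : 0 < W1 U := by
  have := isOpenPos_haarT 6
  have hopen : IsOpen ((fun y => ((proj1 y, e) : CoS 6)) ⁻¹' U) :=
    hU.preimage (continuous_proj1.prodMk continuous_const)
  have hpos : 0 < haarT 6 ((fun y => ((proj1 y, e) : CoS 6)) ⁻¹' U) :=
    hopen.measure_pos _ ⟨y, hy⟩
  have hhalf : (0 : ENNReal) < 1 / 2 := by simp
  unfold W1
  rw [Measure.add_apply, Measure.smul_apply, Measure.smul_apply,
    Measure.map_apply (measurable_emb1 _) hU.measurableSet,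
    Measure.map_apply (measurable_emb1 _) hU.measurableSet]
  rcases he with rfl | rfl
  · exact lt_of_lt_of_le (ENNReal.mul_pos hhalf.ne' hpos.ne') le_self_add
  · exact lt_of_lt_of_le (ENNReal.mul_pos hhalf.ne' hpos.ne') le_add_self

theorem support_W1 : W1.support = {p : CoS 6 | p.1 0 = 0 ∧
    ∀ i, i ≠ 2 → (p.2 : EuclideanSpace ℝ (Fin 6)) i = 0} := by
  ext p
  constructor
  · intro hp
    refine ⟨?_, ?_⟩
    · by_contra h
      refine null_open1 (U := {p : CoS 6 | p.1 0 ≠ 0})
        (isOpen_ne.preimage ((continuous_apply 0).comp continuous_fst)) ?_ ?_ p h hp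
      · intro y hy; exact hy (by simp [proj1])
      · intro y hy; exact hy (by simp [proj1])
    · intro i hi
      by_contra h
      refine null_open1 (U := {p : CoS 6 | (p.2 : EuclideanSpace ℝ (Fin 6)) i ≠ 0})
        (isOpen_ne.preimage ?_) ?_ ?_ p h hp
      · have : Continuous fun q : CoS 6 => (q.2 : EuclideanSpace ℝ (Fin 6)) :=
          continuous_subtype_val.comp continuous_snd
        exact (EuclideanSpace.proj i).continuous.comp this
      · intro y hy; exact hy (by simp [coe_ePlus, hi])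
      · intro y hy; exact hy (by simp [coe_eMinus, hi])
  · rintro ⟨h0, hξ⟩
    have hn : ‖(p.2 : EuclideanSpace ℝ (Fin 6))‖ = 1 := by simpa using p.2.2
    have he : p.2 = ePlus ∨ p.2 = eMinus := by
      rcases eq_two_of hξ hn with h | h
      · left
        apply Subtype.ext
        ext i
        rw [coe_ePlus]
        by_cases hi : i = 2
        · rw [if_pos hi, hi, h]
        · rw [if_neg hi, hξ i hi]
      · right
        apply Subtype.ext
        ext i
        rw [coe_eMinus]
        by_cases hi : i = 2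
        · rw [if_pos hi, hi, h]
        · rw [if_neg hi, hξ i hi]
    have hproj : proj1 p.1 = p.1 := by
      funext i
      unfold proj1
      by_cases hi : i = 0
      · rw [if_pos hi, hi, h0]
      · rw [if_neg hi]
    by_contra hns
    rw [Measure.notMem_support_iff_exists] at hns
    obtain ⟨U, hU, hU0⟩ := hns
    obtain ⟨V, hVU, hV, hpV⟩ := mem_nhds_iff.1 hU
    have : 0 < W1 V := pos_open1 (y := p.1) hV he (by rw [hproj]; exact hpV)
    exact absurd (measure_mono_null hVU hU0) this.ne'

/-! ### `SΣ_10` -/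

theorem cW_eq_zero {x : ℝ} : cW x = 0 ↔ ((x : ℝ) : UnitAddCircle) = ((1 / 2 : ℝ) : UnitAddCircle) := by
  unfold cW
  rw [Real.cos_eq_zero_iff]
  have hpi := Real.pi_ne_zero
  constructor
  · rintro ⟨n, hn⟩
    have h1 : x = 1 / 2 + n := by
      have : Real.pi * x = Real.pi * (1 / 2 + n) := by linarith
      exact mul_left_cancel₀ hpi this
    rw [h1, AddCircle.coe_add]
    have : ((n : ℝ) : UnitAddCircle) = 0 := by
      rw [AddCircle.coe_eq_zero_iff]
      exact ⟨n, by simp⟩
    rw [this, add_zero]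
  · intro h
    have h1 : ((x - 1 / 2 : ℝ) : UnitAddCircle) = 0 := by
      rw [AddCircle.coe_sub, h, sub_self]
    rw [AddCircle.coe_eq_zero_iff] at h1
    obtain ⟨n, hn⟩ := h1
    rw [zsmul_eq_mul, mul_one] at hn
    refine ⟨n, ?_⟩
    have : x = n + 1 / 2 := by linarith
    rw [this]
    ring

theorem gW_of_cos {x : ℝ} (h : cW x = 0) : gW x = 128 := by
  have h1 := gW_sub x
  unfold cW at h
  rw [h, zero_pow (by norm_num), zero_mul] at h1
  linarith

theorem SSigma_XW : SSigma XW 10 = {p : CoS 6 | p.1 0 = ((1 / 2 : ℝ) : UnitAddCircle) ∧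
    (p.2 : EuclideanSpace ℝ (Fin 6)) 0 = 0 ∧ (p.2 : EuclideanSpace ℝ (Fin 6)) 1 = 0 ∧
    (p.2 : EuclideanSpace ℝ (Fin 6)) 2 = 0 ∧ (p.2 : EuclideanSpace ℝ (Fin 6)) 3 = 0 ∧
    (p.2 : EuclideanSpace ℝ (Fin 6)) 4 = -128 * (p.2 : EuclideanSpace ℝ (Fin 6)) 5} := by
  have mem := fun (i : Fin 4) (x : Fin 6 → ℝ) =>
    XF_mem contDiff_fW contDiff_gW fW_periodic gW_periodic (by norm_num : 1 ≤ 10) i x
  ext p
  constructor
  · rintro ⟨x, hx, hv⟩
    have hcx : cW (x 0) = 0 := by
      by_contra hc
      have htop := flag10_XW x hc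
      have hz : (p.2 : EuclideanSpace ℝ (Fin 6)) = 0 := by
        ext i
        have := hv (Pi.single i 1) (by rw [htop]; exact Submodule.mem_top)
        simpa [Pi.single_apply] using this
      have hn : ‖(p.2 : EuclideanSpace ℝ (Fin 6))‖ = 1 := by simpa using p.2.2
      rw [hz] at hn
      simp at hn
    have h0 : (p.2 : EuclideanSpace ℝ (Fin 6)) 0 = 0 := by
      have := hv _ (mem 0 x)
      simpa [XF, Fin.sum_univ_succ] using this
    have h3 : (p.2 : EuclideanSpace ℝ (Fin 6)) 3 = 0 := by
      have := hv _ (mem 2 x)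
      rw [← Ef_three'] at this
      simpa [Ef, Pi.single_apply] using this
    have h2 : (p.2 : EuclideanSpace ℝ (Fin 6)) 2 = 0 := by
      have := hv _ (flag_mono (by norm_num : 9 ≤ 10) x (single_two_XW x))
      simpa [Pi.single_apply] using this
    have h1 : (p.2 : EuclideanSpace ℝ (Fin 6)) 1 = 0 := by
      have := hv _ (mem 1 x)
      rw [XF_one'] at this
      simpa [Ef, Gf, Pi.single_apply, mul_add, Finset.sum_add_distrib, h2] using this
    have h4 : (p.2 : EuclideanSpace ℝ (Fin 6)) 4 + (p.2 : EuclideanSpace ℝ (Fin 6)) 5 * 128 = 0 := by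
      have := hv _ (mem 3 x)
      rw [XF_three'] at this
      simpa [Ef, Gf, Pi.single_apply, mul_add, Finset.sum_add_distrib, gW_of_cos hcx] using this
    refine ⟨?_, h0, h1, h2, h3, by linarith⟩
    rw [← hx]
    exact cW_eq_zero.1 hcx
  · rintro ⟨h, h0, h1, h2, h3, h4⟩
    have hsurj : ∀ i, ∃ t : ℝ, ((t : ℝ) : UnitAddCircle) = p.1 i := fun i =>
      QuotientAddGroup.mk_surjective (p.1 i)
    choose y hy using hsurj
    refine ⟨y, funext hy, ?_⟩
    intro v hv
    have hc : cW (y 0) = 0 := cW_eq_zero.2 (by rw [hy, h])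
    have hv5 := flag10_XW' y hc v hv
    rw [Fin.sum_univ_six, h0, h1, h2, h3, h4, hv5]
    ring

theorem SSigma_nonempty : (SSigma XW 10).Nonempty := by
  have hn : (0 : ℝ) < Real.sqrt (128 ^ 2 + 1) := Real.sqrt_pos.2 (by norm_num)
  set r : ℝ := Real.sqrt (128 ^ 2 + 1) with hr
  have hr2 : r ^ 2 = 128 ^ 2 + 1 := Real.sq_sqrt (by norm_num)
  set ξ : EuclideanSpace ℝ (Fin 6) := WithLp.toLp 2 ![0, 0, 0, 0, -128 / r, 1 / r] with hξ
  have hξn : ξ ∈ Metric.sphere (0 : EuclideanSpace ℝ (Fin 6)) 1 := by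
    rw [mem_sphere_zero_iff_norm]
    have h1 : ‖ξ‖ ^ 2 = 1 := by
      rw [EuclideanSpace.norm_sq_eq, Fin.sum_univ_six]
      simp only [hξ, Real.norm_eq_abs, sq_abs]
      simp
      field_simp
      linarith
    have h2 : (‖ξ‖ - 1) * (‖ξ‖ + 1) = 0 := by linear_combination h1
    rcases mul_eq_zero.1 h2 with h | h
    · linarith
    · have := norm_nonneg ξ
      linarith
  refine ⟨(fun _ => ((1 / 2 : ℝ) : UnitAddCircle), ⟨ξ, hξn⟩), ?_⟩
  rw [SSigma_XW]
  refine ⟨rfl, ?_, ?_, ?_, ?_, ?_⟩ <;> simp [hξ]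
  field_simp

theorem disjoint_XW : Disjoint W1.support (SSigma XW 10) := by
  rw [Set.disjoint_left]
  intro p hp hp'
  rw [support_W1] at hp
  rw [SSigma_XW] at hp'
  exact half_ne (hp'.1.symm.trans hp.1)

end WD
end MP_d22ea4_an
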